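import Pool.Agent.helper1.PR.Defs

/-!
PR project (MP_15abe0_co), module J2: shifts of `Om`.
-/

namespace Pool.Agent.helper1.PR

open Finset

private lemma card_shift_Ico (x y c : ℤ) :
    #{a ∈ Ico x y | a - c ∉ Ico x y} ≤ c.natAbs := by
  have h : {a ∈ Ico x y | a - c ∉ Ico x y} ⊆ Ico x (x + c) ∪ Ico (y + c) y := by
    intro a ha
    rw [mem_filter, mem_Ico, mem_Ico] at ha
    rw [mem_union, mem_Ico, mem_Ico]
    omega
  refine (card_le_card h).trans ((card_union_le _ _).trans ?_)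
  rw [Int.card_Ico, Int.card_Ico]
  omega

private lemma card_shift_box (L : ℕ) (b : ℤ√2) :
    #{w ∈ box L | w - b ∉ box L} ≤ b.re.natAbs * L + 2 * L * b.im.natAbs := by
  classical
  set I := Ico (2 * (L : ℤ)) (4 * L) with hI
  set J := Ico (0 : ℤ) L with hJ
  have h : {w ∈ box L | w - b ∉ box L} ⊆
      (({a ∈ I | a - b.re ∉ I} ×ˢ J) ∪ (I ×ˢ {a ∈ J | a - b.im ∉ J})).image
        (fun p : ℤ × ℤ => (⟨p.1, p.2⟩ : ℤ√2)) := by
    intro w hw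
    rw [mem_filter, mem_box, mem_box] at hw
    obtain ⟨hw1, hw2⟩ := hw
    rw [mem_image]
    refine ⟨(w.re, w.im), ?_, rfl⟩
    rw [Zsqrtd.re_sub, Zsqrtd.im_sub] at hw2
    simp only [mem_union, mem_product, mem_filter, hI, hJ, mem_Ico]
    omega
  refine (card_le_card h).trans (card_image_le.trans ((card_union_le _ _).trans ?_))
  rw [card_product, card_product]
  have h1 : #I = 2 * L := by rw [hI, Int.card_Ico]; omega
  have h2 : #J = L := by rw [hJ, Int.card_Ico]; omega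
  rw [h1, h2]
  have h3 := card_shift_Ico (2 * (L : ℤ)) (4 * L) b.re
  have h4 := card_shift_Ico (0 : ℤ) L b.im
  rw [← hI] at h3
  rw [← hJ] at h4
  gcongr

private lemma ratio_bound {L : ℕ} (hL : 0 < L) (b : ℤ√2) (K : ℝ) (hK : 0 ≤ K) :
    K * (#{w ∈ box L | w - b ∉ box L} : ℝ) ≤
      (2 * (L : ℝ) ^ 2 * K) * (((|b.re| + |b.im| : ℤ) : ℝ) / L) := by
  have h := card_shift_box L b
  have h' : (#{w ∈ box L | w - b ∉ box L} : ℝ) ≤
      (b.re.natAbs : ℝ) * L + 2 * L * (b.im.natAbs : ℝ) := by exact_mod_cast h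
  have hL' : (0 : ℝ) < L := by exact_mod_cast hL
  have e1 : ((|b.re| + |b.im| : ℤ) : ℝ) = (b.re.natAbs : ℝ) + (b.im.natAbs : ℝ) := by
    push_cast
    rw [Nat.cast_natAbs, Nat.cast_natAbs]
    push_cast
    rfl
  rw [e1]
  have e2 : (2 * (L : ℝ) ^ 2 * K) * (((b.re.natAbs : ℝ) + (b.im.natAbs : ℝ)) / L) =
      K * (2 * L * ((b.re.natAbs : ℝ) + (b.im.natAbs : ℝ))) := by
    field_simp
  rw [e2]
  refine mul_le_mul_of_nonneg_left (h'.trans ?_) hK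
  have h5 : (0 : ℝ) ≤ (b.re.natAbs : ℝ) * L := by positivity
  nlinarith

/-- `shift_Om` with the counting formulas as hypotheses -/
theorem shift_Om_of {Q' Lw Ly : ℕ} (hw : 0 < Lw) (hy : 0 < Ly)
    (hl : ∀ F : ℤ√2 → ℝ, ∑ p ∈ Om Q' Lw Ly, F p.1 = ((Ly : ℝ) / Q') ^ 2 * ∑ w ∈ box Lw, F w)
    (hr : ∀ F : ℤ√2 → ℝ, ∑ p ∈ Om Q' Lw Ly, F p.2 = ((Lw : ℝ) / Q') ^ 2 * ∑ y ∈ box Ly, F y)
    (F : ℤ√2 × ℤ√2 → ℝ) (hF : ∀ p, |F p| ≤ 1) (b b' : ℤ√2)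
    (hb1 : (2 * (Q' : ℤ)) ∣ b.re - b'.re) (hb2 : (Q' : ℤ) ∣ b.im - b'.im) :
    |∑ p ∈ Om Q' Lw Ly, F (p + (b, b')) - ∑ p ∈ Om Q' Lw Ly, F p| ≤
      2 * #(Om Q' Lw Ly) * (((|b.re| + |b.im| : ℤ) : ℝ) / Lw +
        ((|b'.re| + |b'.im| : ℤ) : ℝ) / Ly) := by
  classical
  set Ω := Om Q' Lw Ly with hΩ
  set β : ℤ√2 × ℤ√2 := (b, b') with hβ
  -- the shifted set
  set Ω' := Ω.map (addRightEmbedding β) with hΩ'
  have e1 : ∑ p ∈ Ω, F (p + β) = ∑ p ∈ Ω', F p := by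
    rw [hΩ', sum_map]
    rfl
  have e2 : ∑ p ∈ Ω', F p - ∑ p ∈ Ω, F p = ∑ p ∈ Ω' \ Ω, F p - ∑ p ∈ Ω \ Ω', F p := by
    rw [← sum_sdiff_sub_sum_sdiff]
  have e3 : #(Ω' \ Ω) = #(Ω \ Ω') := by
    have h : #Ω' = #Ω := card_map _
    have h1 := card_sdiff_add_card_inter Ω' Ω
    have h2 := card_sdiff_add_card_inter Ω Ω'
    rw [inter_comm] at h2
    omega
  have b1 : ∀ X : Finset (ℤ√2 × ℤ√2), |∑ p ∈ X, F p| ≤ #X := by
    intro X
    refine (abs_sum_le_sum_abs _ _).trans ((sum_le_sum fun p _ => hF p).trans ?_)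
    simp
  have e4 : Ω \ Ω' ⊆ {p ∈ Ω | p.1 - b ∉ box Lw} ∪ {p ∈ Ω | p.2 - b' ∉ box Ly} := by
    intro p hp
    rw [mem_sdiff] at hp
    obtain ⟨hp1, hp2⟩ := hp
    rw [mem_union, mem_filter, mem_filter]
    by_contra hcon
    push Not at hcon
    have h1 := hcon.1 hp1
    have h2 := hcon.2 hp1
    apply hp2
    rw [hΩ', mem_map]
    refine ⟨p - β, ?_, by simp⟩
    rw [hΩ, Om, mem_filter, mem_product] at hp1 ⊢
    refine ⟨⟨by simpa [hβ] using h1, by simpa [hβ] using h2⟩, ?_, ?_⟩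
    · have : (p - β).1.re - (p - β).2.re = (p.1.re - p.2.re) - (b.re - b'.re) := by
        simp only [hβ, Prod.fst_sub, Prod.snd_sub, Zsqrtd.re_sub]
        ring
      rw [this]
      exact dvd_sub hp1.2.1 hb1
    · have : (p - β).1.im - (p - β).2.im = (p.1.im - p.2.im) - (b.im - b'.im) := by
        simp only [hβ, Prod.fst_sub, Prod.snd_sub, Zsqrtd.im_sub]
        ring
      rw [this]
      exact dvd_sub hp1.2.2 hb2
  have c1 : (#{p ∈ Ω | p.1 - b ∉ box Lw} : ℝ) =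
      ((Ly : ℝ) / Q') ^ 2 * #{w ∈ box Lw | w - b ∉ box Lw} := by
    have h := hl (fun w => if w - b ∉ box Lw then 1 else 0)
    rw [← sum_filter, ← sum_filter] at h
    simpa using h
  have c2 : (#{p ∈ Ω | p.2 - b' ∉ box Ly} : ℝ) =
      ((Lw : ℝ) / Q') ^ 2 * #{y ∈ box Ly | y - b' ∉ box Ly} := by
    have h := hr (fun w => if w - b' ∉ box Ly then 1 else 0)
    rw [← sum_filter, ← sum_filter] at h
    simpa using h
  have d1 : (#Ω : ℝ) = 2 * (Lw : ℝ) ^ 2 * ((Ly : ℝ) / Q') ^ 2 := by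
    have h := hl (fun _ => 1)
    simp only [sum_const, nsmul_eq_mul, mul_one, card_box] at h
    rw [h]; push_cast; ring
  have d2 : (#Ω : ℝ) = 2 * (Ly : ℝ) ^ 2 * ((Lw : ℝ) / Q') ^ 2 := by
    have h := hr (fun _ => 1)
    simp only [sum_const, nsmul_eq_mul, mul_one, card_box] at h
    rw [h]; push_cast; ring
  have f1 := ratio_bound hw b (((Ly : ℝ) / Q') ^ 2) (by positivity)
  have f2 := ratio_bound hy b' (((Lw : ℝ) / Q') ^ 2) (by positivity)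
  rw [← c1, ← d1] at f1
  rw [← c2, ← d2] at f2
  have g1 : (#(Ω \ Ω') : ℝ) ≤ #Ω * (((|b.re| + |b.im| : ℤ) : ℝ) / Lw) +
      #Ω * (((|b'.re| + |b'.im| : ℤ) : ℝ) / Ly) := by
    have h : (#(Ω \ Ω') : ℝ) ≤ #{p ∈ Ω | p.1 - b ∉ box Lw} + #{p ∈ Ω | p.2 - b' ∉ box Ly} := by
      exact_mod_cast (card_le_card e4).trans (card_union_le _ _)
    linarith
  rw [e1, e2]
  have g2 := b1 (Ω' \ Ω)
  have g3 := b1 (Ω \ Ω')
  rw [e3] at g2
  have g4 : |∑ p ∈ Ω' \ Ω, F p - ∑ p ∈ Ω \ Ω', F p| ≤ 2 * #(Ω \ Ω') := by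
    refine (abs_sub _ _).trans ?_
    linarith
  refine g4.trans ?_
  nlinarith

end Pool.Agent.helper1.PR
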